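import Pool.Agent.N549.HG.Stm5

/-!
# HG/REG (helper55, project HG of helper549): regions between two cubes
-/

set_option autoImplicit false

namespace Pool.Agent.N55.HG

open MeasureTheory Set Finset
open scoped ENNReal NNReal
open Pool.Agent.N549.HG

theorem reg : S_REG := by
  intro d k b L R hb hL hR h1 h2
  have hfin : ∀ L' : ℝ, volume {x : Fin k → Fin d → ℝ | (∀ i m, x i m ∈ Set.Icc (0 : ℝ) L') ∧
      ∀ i j, i ≠ j → b ^ 2 ≤ ∑ m, (x i m - x j m) ^ 2} ≠ ⊤ := by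
    intro L'
    have hsub : {x : Fin k → Fin d → ℝ | (∀ i m, x i m ∈ Set.Icc (0 : ℝ) L') ∧
        ∀ i j, i ≠ j → b ^ 2 ≤ ∑ m, (x i m - x j m) ^ 2} ⊆
        Set.Icc (fun _ _ => 0) (fun _ _ => L') := by
      rintro x ⟨hx, _⟩
      exact ⟨fun i m => (hx i m).1, fun i m => (hx i m).2⟩
    exact ((measure_mono hsub).trans_lt isCompact_Icc.measure_lt_top).ne
  have hup : {x : Fin k → Fin d → ℝ | (∀ i, x i ∈ R) ∧
      ∀ i j, i ≠ j → b ^ 2 ≤ ∑ m, (x i m - x j m) ^ 2} ⊆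
      {x : Fin k → Fin d → ℝ | (∀ i m, x i m ∈ Set.Icc (0 : ℝ) L) ∧
      ∀ i j, i ≠ j → b ^ 2 ≤ ∑ m, (x i m - x j m) ^ 2} := by
    rintro x ⟨hx, hx2⟩
    exact ⟨fun i m => h2 _ (hx i) m, hx2⟩
  refine ⟨?_, ENNReal.toReal_mono (hfin L) (measure_mono hup)⟩
  refine ENNReal.toReal_mono ((measure_mono hup).trans_lt (hfin L).lt_top).ne ?_
  have hpre := measure_preimage_add_right (volume : Measure (Fin k → Fin d → ℝ))
    (fun _ _ => b) {x : Fin k → Fin d → ℝ | (∀ i, x i ∈ R) ∧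
      ∀ i j, i ≠ j → b ^ 2 ≤ ∑ m, (x i m - x j m) ^ 2}
  rw [← hpre]
  apply measure_mono
  rintro x ⟨hx, hx2⟩
  refine ⟨fun i => h1 _ fun m => ?_, fun i j hij => ?_⟩
  · have := hx i m
    change x i m + b ∈ Set.Icc b (L - b)
    exact ⟨by linarith [this.1], by linarith [this.2]⟩
  · have := hx2 i j hij
    change b ^ 2 ≤ ∑ m, ((x i m + b) - (x j m + b)) ^ 2
    simpa only [add_sub_add_right_eq_sub] using this

end Pool.Agent.N55.HG
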